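import Pool.Agent.H96.QU.Quad
import Pool.Graph.R_pool_sql_team_seeded_63374d34.N110.QG.Fin

/-!
Quartic growth of the degrees of commuting birational self-maps of entropy zero if the numerical
dimension of `K_X + Δ` is at least `dim X - 2` (helper96).
-/

set_option autoImplicit false
set_option linter.overlappingInstances false
set_option linter.unusedSectionVars false

open FF Module MvPolynomial Pool.Agent.W602.GT Pool.Agent.W603.LV
open Pool.Agent.Y172 Pool.Agent.Y191 Pool.Agent.R887 Pool.Agent.N110 Pool.Agent.N110.RK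
open scoped ENNReal

namespace Pool.Agent.H96.QU

section

variable {K : Type} [Field K] [Algebra ℂ K] {N n : ℕ} {y : Fin (N + 1) → K}

/-- a lattice point of norm at most `l` is the sum of `l` points of norm at most one -/
theorem exists_word {r : ℕ} : ∀ (l : ℕ) (v : Lat r), (∀ i, |v i| ≤ l) →
    ∃ w : List (Lat r), w.length = l ∧ (∀ u ∈ w, ∀ i, |u i| ≤ 1) ∧ w.sum = v := by
  intro l
  induction l with
  | zero =>
    intro v hv
    refine ⟨[], rfl, by simp, ?_⟩
    rw [List.sum_nil]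
    funext i
    have := hv i
    rw [Nat.cast_zero] at this
    exact (abs_eq_zero.1 (le_antisymm this (abs_nonneg _))).symm
  | succ l ih =>
    intro v hv
    obtain ⟨w, h1, h2, h3⟩ := ih (fun i => v i - (v i).sign) (fun i => by
      have h4 := abs_le.1 (hv i)
      push_cast at h4
      rw [abs_le]
      rcases lt_trichotomy (v i) 0 with h | h | h
      · rw [Int.sign_eq_neg_one_of_neg h]
        omega
      · rw [h, Int.sign_zero]
        omega
      · rw [Int.sign_eq_one_of_pos h]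
        omega)
    refine ⟨(fun i => (v i).sign) :: w, by rw [List.length_cons, h1], ?_, ?_⟩
    · intro u hu i
      rcases List.mem_cons.1 hu with rfl | hu
      · change |(v i).sign| ≤ 1
        rcases lt_trichotomy (v i) 0 with h | h | h
        · rw [Int.sign_eq_neg_one_of_neg h]
          norm_num
        · rw [h, Int.sign_zero]
          norm_num
        · rw [Int.sign_eq_one_of_pos h]
          norm_num
      · exact h2 u hu i
    · rw [List.sum_cons, h3]
      funext i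
      rw [Pi.add_apply]
      ring

theorem map_list {G : Type} [Group G] {r : ℕ} {φ : Lat r → G}
    (hφ : ∀ u v, φ (u + v) = φ u * φ v) (w : List (Lat r)) : φ w.sum = (w.map φ).prod := by
  have h0 : φ 0 = 1 := by
    have h1 := hφ 0 0
    rw [add_zero] at h1
    exact (mul_eq_left.1 h1.symm)
  induction w with
  | nil => rw [List.sum_nil, h0, List.map_nil, List.prod_nil]
  | cons a w ih => rw [List.sum_cons, hφ, ih, List.map_cons, List.prod_cons]

theorem map_nsmul' {G : Type} [Group G] {r : ℕ} {φ : Lat r → G}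
    (hφ : ∀ u v, φ (u + v) = φ u * φ v) (v : Lat r) (l : ℕ) : φ (l • v) = φ v ^ l := by
  induction l with
  | zero =>
    have h1 := hφ 0 0
    rw [add_zero] at h1
    rw [zero_smul, pow_zero]
    exact (mul_eq_left.1 h1.symm)
  | succ l ih => rw [succ_nsmul, hφ, ih, pow_succ]

/-- subexponential growth -/
theorem subexp_of_limsup {f : ℕ → ℝ} (hf : ∀ l, 0 ≤ f l)
    (h : Filter.limsup (fun l : ℕ => ENNReal.ofReal (f l) ^ (1 / (l : ℝ))) Filter.atTop ≤ 1)
    (ε : ℝ) (hε : 0 < ε) : ∃ B : ℝ, ∀ l : ℕ, f l ≤ B * Real.exp (ε * l) := by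
  have h1 : (1 : ℝ≥0∞) < ENNReal.ofReal (Real.exp ε) := by
    rw [← ENNReal.ofReal_one]
    exact (ENNReal.ofReal_lt_ofReal_iff (Real.exp_pos _)).2 (Real.one_lt_exp_iff.2 hε)
  have h2 := Filter.eventually_lt_of_limsup_lt (lt_of_le_of_lt h h1)
  obtain ⟨l0, hl0⟩ := Filter.eventually_atTop.1 h2
  refine ⟨1 + ∑ l ∈ Finset.range (l0 + 1), f l, fun l => ?_⟩
  have hs : 0 ≤ ∑ l ∈ Finset.range (l0 + 1), f l := Finset.sum_nonneg fun l _ => hf l
  rcases Nat.lt_or_ge l (l0 + 1) with hl | hl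
  · have h3 : f l ≤ ∑ l ∈ Finset.range (l0 + 1), f l :=
      Finset.single_le_sum (f := f) (fun l _ => hf l) (Finset.mem_range.2 hl)
    have h4 : 1 ≤ Real.exp (ε * l) := Real.one_le_exp (by positivity)
    calc f l ≤ (1 + ∑ l ∈ Finset.range (l0 + 1), f l) * 1 := by linarith
      _ ≤ _ := mul_le_mul_of_nonneg_left h4 (by linarith)
  · have h3 := hl0 l (by omega)
    have hlr : (0 : ℝ) < l := by
      have : 0 < l := by omega
      exact_mod_cast this
    have h4 : ENNReal.ofReal (f l) ≤ ENNReal.ofReal (Real.exp (ε * l)) := by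
      have h5 := ENNReal.rpow_le_rpow h3.le hlr.le
      rw [← ENNReal.rpow_mul, one_div_mul_cancel hlr.ne', ENNReal.rpow_one,
        ENNReal.ofReal_rpow_of_pos (Real.exp_pos _), ← Real.exp_mul] at h5
      exact h5
    have h5 : f l ≤ Real.exp (ε * l) := by
      rwa [ENNReal.ofReal_le_ofReal_iff (Real.exp_pos _).le] at h4
    have h6 := Real.exp_pos (ε * l)
    calc f l ≤ 1 * Real.exp (ε * l) := by rw [one_mul]; exact h5
      _ ≤ _ := mul_le_mul_of_nonneg_right (by linarith) h6.le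

/-- **Quartic growth.** -/
theorem quartic_growth (hy : NormalModel y)
    (hn : Algebra.trdeg ℂ K = n) (hn3 : 3 ≤ n) {Δ : Place ℂ K → ℚ}
    (hΔ : {P | IsPrimeDivisor y P ∧ Δ P ≠ 0}.Finite) {r : ℕ} {φ : Lat r → (K ≃ₐ[ℂ] K)}
    (hφ : ∀ u v, φ (u + v) = φ u * φ v) (hP : ∀ v, PullLe (φ v) y n Δ)
    (hent : ∀ v, dynDegree (φ v) y n 1 ≤ 1) (hnum : ¬ NumDimLt y n Δ (n - 2)) :
    ∃ A : ℝ, ∀ (l : ℕ) (v : Lat r), (∀ i, |v i| ≤ l) →
      mixedDegree (φ v) y n 1 ≤ ENNReal.ofReal (A * (l + 1) ^ 4) := by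
  classical
  obtain ⟨i, hi⟩ := hy.ne
  have hinv : ∀ v, (φ v)⁻¹ = φ (-v) := by
    intro v
    have h1 := hφ v (-v)
    have h2 := hφ 0 0
    rw [add_zero] at h2
    have h0 : φ 0 = 1 := mul_eq_left.1 h2.symm
    rw [add_neg_cancel, h0] at h1
    exact inv_eq_of_mul_eq_one_right h1.symm
  by_cases hnum' : NumDimLt y n Δ (n - 1)
  · -- the exact numerical dimension
    obtain ⟨k, rfl⟩ : ∃ k, n = k + 3 := ⟨n - 3, by omega⟩
    have e1 : k + 3 - 2 = k + 1 := by omega
    have e2 : k + 3 - 1 = k + 2 := by omega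
    rw [e1] at hnum
    rw [e2] at hnum'
    obtain ⟨m, M, c, ε, h⟩ := exists_rsys hy hn (by omega) hi hΔ hφ hP (by omega) hnum
      (fun _ => hnum')
    obtain ⟨J, T, D, C, κ, hQ⟩ := exists_qr h
    have hdeg : ∀ v : Lat r, mixedDegree (φ v) y (k + 3) 1 = ENNReal.ofReal
        ((I (mapCls hy hi (φ v) (hcls hy hi) ::ₘ Multiset.replicate (k + 2) (hcls hy hi)) : ℕ) :
          ℝ) := by
      intro v
      rw [mixedDegree_eq hy hn hi (φ v) (by omega : 1 ≤ k + 3), Multiset.replicate_one,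
        Multiset.singleton_add, e2, ENNReal.ofReal_natCast]
    obtain ⟨A, hA0, hA⟩ := hQ.quartic (fun v ε hε => by
      refine subexp_of_limsup (fun l => Nat.cast_nonneg _) ?_ ε hε
      have h1 := hent v
      unfold dynDegree at h1
      refine le_trans (le_of_eq ?_) h1
      congr 1
      funext l
      rw [← map_nsmul' hφ v l, hdeg])
    refine ⟨A, fun l v hv => ?_⟩
    rw [hdeg]
    exact ENNReal.ofReal_le_ofReal (hA l v hv)
  · -- quadratic growth
    obtain ⟨F, hF⟩ : ∃ F : Finset (Lat r),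
        F = Fintype.piFinset (fun _ => Finset.Icc (-1 : ℤ) 1) := ⟨_, rfl⟩
    have hFm : ∀ v : Lat r, (∀ i, |v i| ≤ 1) → v ∈ F := by
      intro v hv
      rw [hF, Fintype.mem_piFinset]
      intro i
      rw [Finset.mem_Icc]
      exact abs_le.1 (hv i)
    obtain ⟨d, hd⟩ : ∃ d : Lat r → ℕ, ∀ v, mixedDegree (φ v) y n 1 = (d v : ℝ≥0∞) :=
      ⟨fun v => I (Multiset.replicate 1 (mapCls hy hi (φ v) (hcls hy hi)) +
        Multiset.replicate (n - 1) (hcls hy hi)), fun v =>
        mixedDegree_eq hy hn hi (φ v) (by omega : 1 ≤ n)⟩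
    obtain ⟨A, hA⟩ := QG.quadratic_growth hy hn (by omega) hΔ (S := φ '' {v | ∀ i, |v i| ≤ 1})
      (B := ∑ v ∈ F, d v) (Or.inl (by
        rintro _ ⟨v, -, rfl⟩
        exact ⟨hP v, by rw [hinv]; exact hP _⟩)) (by
        rintro _ ⟨v, hv, rfl⟩
        rw [hd]
        have h1 : d v ≤ ∑ v ∈ F, d v :=
          Finset.single_le_sum (f := d) (fun v _ => Nat.zero_le _) (hFm v hv)
        exact_mod_cast h1) hnum'
    refine ⟨|A|, fun l v hv => ?_⟩
    obtain ⟨w, hw1, hw2, hw3⟩ := exists_word l v hv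
    have h1 := hA (w.map φ) (by
      intro ψ hψ
      obtain ⟨u, hu, rfl⟩ := List.mem_map.1 hψ
      exact ⟨u, hw2 u hu, rfl⟩)
    rw [← map_list hφ, hw3, List.length_map, hw1] at h1
    refine h1.trans (ENNReal.ofReal_le_ofReal ?_)
    have h2 : ((l : ℝ) + 1) ^ 2 ≤ ((l : ℝ) + 1) ^ 4 :=
      pow_le_pow_right₀ (by linarith [Nat.cast_nonneg (α := ℝ) l]) (by norm_num)
    calc A * ((l : ℝ) + 1) ^ 2 ≤ |A| * ((l : ℝ) + 1) ^ 2 :=
          mul_le_mul_of_nonneg_right (le_abs_self A) (by positivity)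
      _ ≤ _ := mul_le_mul_of_nonneg_left h2 (abs_nonneg A)

end

end Pool.Agent.H96.QU
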