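import Pool.Agent.H96.QU.Rk
import Pool.Graph.R_pool_sql_team_seeded_63374d34.N50.QG.Lim
import Pool.Graph.R_pool_sql_team_seeded_63374d34.N769.RK.J

/-!
Quartic growth: the limit forms of degree two and three of an almost invariant sequence (helper96).
-/

set_option autoImplicit false

open Multiset Filter Topology
open Pool.Agent.N110 Pool.Agent.N110.RK

namespace Pool.Agent.H96.QU

/-- The limit forms `J` of degree two and `T` of degree three on the lattice, and the degrees. -/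
structure QR {r : ℕ} (b : Lat r → ℝ) (J T : Multiset (Lat r) → ℝ) (D : Lat r → ℝ) (C κ : ℝ) :
    Prop where
  hC : 0 < C
  hκ : 0 < κ
  hD : ∀ v, 1 ≤ D v
  nnJ : ∀ s, 0 ≤ J s
  zJ : ∀ s, s.card ≠ 2 → J s = 0
  nnT : ∀ s, 0 ≤ T s
  invJ : ∀ u s, J (s.map (fun v => u + v)) = J s
  invT : ∀ u s, T (s.map (fun v => u + v)) = T s
  one : J (replicate 2 0) = κ
  exJ : ∀ a b c d, J (a ::ₘ b ::ₘ 0) * J (c ::ₘ d ::ₘ 0) ≤
    2 * (J (a ::ₘ c ::ₘ 0) * J (b ::ₘ d ::ₘ 0) + J (a ::ₘ d ::ₘ 0) * J (b ::ₘ c ::ₘ 0))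
  exT : ∀ x y z w, T (x ::ₘ y ::ₘ z ::ₘ 0) * J (w ::ₘ z ::ₘ 0) ≤
    2 * (T (x ::ₘ w ::ₘ z ::ₘ 0) * J (y ::ₘ z ::ₘ 0) + J (x ::ₘ z ::ₘ 0) * T (y ::ₘ w ::ₘ z ::ₘ 0))
  dom : ∀ v w s, J (v ::ₘ s) ≤ D (v - w) * J (w ::ₘ s)
  leJ : ∀ v, J (v ::ₘ 0 ::ₘ 0) ≤ C * b v
  bd : ∀ v, b v ≤ C * (J (v ::ₘ 0 ::ₘ 0) + T (v ::ₘ 0 ::ₘ 0 ::ₘ 0))

section

variable {α 𝒜 : Type}

/-- the quotients -/
noncomputable def Qf {r : ℕ} (n : ℕ) (t : Multiset α → ℝ) (φ : Lat r → α → α) (H : α)
    (m : ℕ → ℝ) (M : 𝒜 → ℕ → α) (a : 𝒜) (q : ℕ) (i : ℕ × Multiset (Lat r)) : ℝ :=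
  if i.2.card + i.1 = n then
    t (replicate i.1 (M a q) + i.2.map (fun v => φ v H)) / m q ^ i.1 else 0

theorem Qf_eq {r n : ℕ} {t : Multiset α → ℝ} {φ : Lat r → α → α} {H : α} {m : ℕ → ℝ}
    {M : 𝒜 → ℕ → α} (a : 𝒜) (q j : ℕ) (s : Multiset (Lat r)) (hs : s.card + j = n) :
    Qf n t φ H m M a q (j, s) =
      t (replicate j (M a q) + s.map (fun v => φ v H)) / m q ^ j := if_pos hs

/-- **The limit forms.** -/
theorem exists_qr [Preorder 𝒜] [IsDirected 𝒜 (· ≤ ·)] [Nonempty 𝒜] {n r : ℕ}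
    {t : Multiset α → ℝ} {φ : Lat r → α → α} {mul : α → α → α} {H : α} {m : ℕ → ℝ}
    {M : 𝒜 → ℕ → α} {c ε : ℝ} (h : RSys (n + 3) r t φ mul H m M (n + 1) c ε) :
    ∃ (J T : Multiset (Lat r) → ℝ) (D : Lat r → ℝ) (C κ : ℝ),
      QR (fun v => t (φ v H ::ₘ replicate (n + 2) H)) J T D C κ := by
  classical
  have hm0 := h.m_pos
  have hc := h.hc
  obtain ⟨B, hBd⟩ : ∃ B : ℕ × Multiset (Lat r) → ℝ, ∀ i, B i =
    if i.2.card + i.1 = n + 3 then c ^ i.1 * t (replicate i.1 H + i.2.map (fun v => φ v H))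
    else 0 := ⟨_, fun _ => rfl⟩
  have hQ0 : ∀ a q i, 0 ≤ Qf (n + 3) t φ H m M a q i := by
    intro a q i
    unfold Qf
    split_ifs with hs
    · exact div_nonneg (h.pos _ (by rw [card_add, card_replicate, card_map]; omega)).le
        (pow_nonneg (hm0 q).le _)
    · exact le_rfl
  have hQB : ∀ a i, ∀ᶠ q in atTop, Qf (n + 3) t φ H m M a q i ≤ B i := by
    intro a i
    filter_upwards [h.M_le a] with q hq
    rw [hBd]
    unfold Qf
    split_ifs with hs
    · have hm := hm0 q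
      have h1 := hq.rep (mul_pos hc hm).le i.1 (i.2.map (fun v => φ v H))
        (by rw [card_map]; exact hs)
      rw [div_le_iff₀ (by positivity)]
      refine h1.trans (le_of_eq ?_)
      rw [mul_pow]
      ring
    · exact le_rfl
  have hQm : ∀ a a', a ≤ a' → ∀ q i, Qf (n + 3) t φ H m M a q i ≤ Qf (n + 3) t φ H m M a' q i := by
    intro a a' haa q i
    unfold Qf
    have hm := hm0 q
    split_ifs with hs
    · have h1 := (h.mono a a' haa q).rep zero_le_one i.1 (i.2.map (fun v => φ v H))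
        (by rw [card_map]; exact hs)
      rw [one_pow, one_mul] at h1
      gcongr
    · exact le_rfl
  obtain ⟨L, hL1, hL2, hL3⟩ :=
    Pool.Agent.N50.QG.exists_lims (Qf (n + 3) t φ H m M) B hQ0 hQB hQm
  have hLnn : ∀ i, 0 ≤ L i := fun i =>
    hL1 {x | 0 ≤ x i} (isClosed_le continuous_const (continuous_apply i))
      (fun a => Eventually.of_forall fun q => hQ0 a q i)
  have hLB : ∀ i, L i ≤ B i := fun i =>
    hL1 {x | x i ≤ B i} (isClosed_le (continuous_apply i) continuous_const) (fun a => hQB a i)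
  have hφ0 : ∀ x, φ 0 x = x := fun x => by rw [h.φ_zero]; rfl
  have hL0 : ∀ s : Multiset (Lat r), s.card = n + 3 → L (0, s) = t (s.map (fun v => φ v H)) := by
    intro s hs
    refine hL1 {x | x (0, s) = t (s.map (fun v => φ v H))}
      (isClosed_eq (continuous_apply _) continuous_const)
      (fun a => Eventually.of_forall fun q => ?_)
    change Qf (n + 3) t φ H m M a q (0, s) = _
    rw [Qf_eq a q 0 s (by omega)]
    simp
  have hLinv1 : ∀ (u : Lat r) (j : ℕ) (s : Multiset (Lat r)),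
      L (j, s.map (fun v => u + v)) ≤ L (j, s) := by
    intro u j s
    refine hL2 _ _ fun a => ?_
    obtain ⟨a', ha'⟩ := h.M_f (-u) a
    refine ⟨a', Eventually.of_forall fun q => ?_⟩
    unfold Qf
    simp only [card_map]
    have hm := hm0 q
    split_ifs with hs
    · have h1 := (ha' q).rep zero_le_one j (s.map (fun v => φ v H)) (by rw [card_map]; exact hs)
      rw [one_pow, one_mul] at h1
      have e1 : replicate j (M a q) + (s.map (fun v => u + v)).map (fun v => φ v H) =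
          (replicate j (φ (-u) (M a q)) + s.map (fun v => φ v H)).map (φ u) := by
        rw [Multiset.map_add, map_replicate, Multiset.map_map, Multiset.map_map]
        congr 2
        · have := congrFun (h.φ_add u (-u)) (M a q)
          rw [add_neg_cancel, h.φ_zero] at this
          exact this
        · refine funext fun v => ?_
          exact congrFun (h.φ_add u v) H
      rw [e1, h.inv u _ (by rw [card_add, card_replicate, card_map]; omega)]
      gcongr
    · exact le_rfl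
  have hLinv : ∀ (u : Lat r) (j : ℕ) (s : Multiset (Lat r)),
      L (j, s.map (fun v => u + v)) = L (j, s) := by
    intro u j s
    refine le_antisymm (hLinv1 u j s) ?_
    have h1 := hLinv1 (-u) j (s.map (fun v => u + v))
    rw [Multiset.map_map] at h1
    have e : ((fun v : Lat r => -u + v) ∘ fun v => u + v) = id := by
      funext v
      simp
    rw [e, Multiset.map_id] at h1
    exact h1
  have hLz : ∀ j s, s.card + j ≠ n + 3 → L (j, s) = 0 := by
    intro j s hs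
    refine le_antisymm ?_ (hLnn _)
    have h1 := hLB (j, s)
    rwa [hBd, if_neg hs] at h1
  -- domination
  have hdom : ∀ (j : ℕ) (v w : Lat r) (s : Multiset (Lat r)),
      L (j, v ::ₘ s) ≤ Pool.Agent.N769.RK.CC (n + 3) t φ H (v - w) * L (j, w ::ₘ s) := by
    intro j v w s
    refine hL1 {f | f (j, v ::ₘ s) ≤ Pool.Agent.N769.RK.CC (n + 3) t φ H (v - w) * f (j, w ::ₘ s)}
      (isClosed_le (by fun_prop) (by fun_prop)) (fun a => Eventually.of_forall fun q => ?_)
    change Qf (n + 3) t φ H m M a q (j, v ::ₘ s) ≤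
      _ * Qf (n + 3) t φ H m M a q (j, w ::ₘ s)
    unfold Qf
    simp only [card_cons]
    have hm := hm0 q
    split_ifs with hs
    · have h1 := Pool.Agent.N769.RK.base2 h v w (replicate j (M a q) + s.map (fun v => φ v H))
        (by rw [card_add, card_replicate, card_map]; omega)
      rw [map_cons, map_cons, add_cons, add_cons, mul_div_assoc']
      gcongr
    · simp
  -- the constants
  obtain ⟨κ, hκ⟩ : ∃ κ, κ = L (n + 1, replicate 2 0) := ⟨_, rfl⟩
  have hκ0 : 0 < κ := by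
    rw [hκ]
    refine h.hε.trans_le ?_
    refine hL3 _ _ ?_
    obtain ⟨a, ha⟩ := h.eps
    refine ⟨a, ?_⟩
    filter_upwards [ha] with q hq
    rw [Qf_eq a q (n + 1) _ (by rw [card_replicate]; omega), le_div_iff₀ (pow_pos (hm0 q) _),
      map_replicate, hφ0]
    have e1 : n + 3 - (n + 1) = 2 := by omega
    rwa [e1] at hq
  obtain ⟨b, hb⟩ : ∃ b : Lat r → ℝ, ∀ v, b v = t (φ v H ::ₘ replicate (n + 2) H) :=
    ⟨_, fun _ => rfl⟩
  have hb0 : ∀ v, 0 < b v := fun v => by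
    rw [hb]; exact h.pos _ (by rw [card_cons, card_replicate])
  have hLb : ∀ v, L (0, v ::ₘ replicate (n + 2) 0) = b v := by
    intro v
    rw [hL0 _ (by rw [card_cons, card_replicate]), hb, map_cons, map_replicate, hφ0]
  -- the mixed degrees are at most the degree
  have hLc : ∀ i, i ≤ n + 2 → ∀ v, L (i, v ::ₘ replicate (n + 2 - i) 0) ≤ c ^ i * b v := by
    intro i hi v
    have h1 := hLB (i, v ::ₘ replicate (n + 2 - i) 0)
    rw [hBd, if_pos (by rw [card_cons, card_replicate]; omega)] at h1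
    refine h1.trans (le_of_eq ?_)
    rw [hb]
    change c ^ i * t (replicate i H + (v ::ₘ replicate (n + 2 - i) 0).map (fun v => φ v H)) = _
    rw [map_cons, map_replicate, hφ0, add_cons, ← replicate_add]
    congr 4
    omega
  -- the numerical dimension
  have htop : ∀ v, L (n + 2, {v}) = 0 := by
    intro v
    have h0 : L (n + 2, {(0 : Lat r)}) ≤ 0 := by
      refine le_of_forall_pos_le_add fun δ hδ => ?_
      rw [zero_add]
      refine hL1 {f | f (n + 2, {(0 : Lat r)}) ≤ δ}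
        (isClosed_le (by fun_prop) continuous_const) (fun a => ?_)
      filter_upwards [h.zero (by omega) a δ hδ] with q hq
      change Qf (n + 3) t φ H m M a q (n + 2, {(0 : Lat r)}) ≤ δ
      rw [Qf_eq a q (n + 2) _ (by rw [card_singleton]; omega), div_le_iff₀ (pow_pos (hm0 q) _),
        map_singleton, hφ0]
      have e1 : n + 3 - (n + 1 + 1) = 1 := by omega
      rw [e1, replicate_one] at hq
      exact hq
    have h1 := hLinv v (n + 2) {(0 : Lat r)}
    rw [map_singleton, add_zero] at h1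
    rw [h1]
    exact le_antisymm h0 (hLnn _)
  obtain ⟨C1, hC1⟩ : ∃ C1, C1 = 16 ^ (n + 2) * (c + 2) * t (replicate (n + 3) H) := ⟨_, rfl⟩
  have hC10 : 0 < C1 := by
    rw [hC1]
    have := h.pos (replicate (n + 3) H) (card_replicate _ _)
    positivity
  have hrk : ∀ (v : Lat r) (N : ℕ), 1 ≤ N → b v * ((N : ℝ) ^ (n + 1) * κ) ≤
      C1 * N * ∑ i ∈ Finset.range (n + 3), (N : ℝ) ^ i * L (i, v ::ₘ replicate (n + 2 - i) 0) := by
    intro v N hN
    have h1 := hL1 {f | f (0, v ::ₘ replicate (n + 2) 0) * ((N : ℝ) ^ (n + 1) *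
          f (n + 1, replicate 2 0)) ≤ C1 * N * ∑ i ∈ Finset.range (n + 3),
            (N : ℝ) ^ i * f (i, v ::ₘ replicate (n + 2 - i) 0)}
      (isClosed_le (by fun_prop) (by fun_prop)) (fun a => ?_)
    · change L (0, v ::ₘ replicate (n + 2) 0) * ((N : ℝ) ^ (n + 1) *
          L (n + 1, replicate 2 0)) ≤ C1 * N * ∑ i ∈ Finset.range (n + 3),
            (N : ℝ) ^ i * L (i, v ::ₘ replicate (n + 2 - i) 0) at h1
      rwa [hLb, ← hκ] at h1
    · filter_upwards [h.M_le a, h.m_tend.eventually_ge_atTop 1] with q hq hq1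
      change Qf (n + 3) t φ H m M a q (0, v ::ₘ replicate (n + 2) 0) * ((N : ℝ) ^ (n + 1) *
          Qf (n + 3) t φ H m M a q (n + 1, replicate 2 0)) ≤ C1 * N * ∑ i ∈ Finset.range (n + 3),
            (N : ℝ) ^ i * Qf (n + 3) t φ H m M a q (i, v ::ₘ replicate (n + 2 - i) 0)
      have h2 := rk_level h.pos h.ex h.mul_t H (φ v H) (M a q) (m q) N hq1 hN c hc hq
      have e1 : ∀ i, i ≤ n + 2 → Qf (n + 3) t φ H m M a q (i, v ::ₘ replicate (n + 2 - i) 0) =
          t (replicate i (M a q) + (φ v H ::ₘ replicate (n + 2 - i) H)) / m q ^ i := by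
        intro i hi
        rw [Qf_eq a q i _ (by rw [card_cons, card_replicate]; omega), map_cons, map_replicate, hφ0]
      have e2 := e1 0 (by omega)
      rw [Nat.sub_zero, replicate_zero, zero_add, pow_zero, div_one] at e2
      rw [e2, Qf_eq a q (n + 1) _ (by rw [card_replicate]; omega), map_replicate, hφ0]
      refine h2.trans (le_of_eq ?_)
      rw [hC1]
      have e3 : ∑ i ∈ Finset.range (n + 3), (N : ℝ) ^ i *
          (t (replicate i (M a q) + (φ v H ::ₘ replicate (n + 2 - i) H)) / m q ^ i) =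
          ∑ i ∈ Finset.range (n + 3), (N : ℝ) ^ i *
            Qf (n + 3) t φ H m M a q (i, v ::ₘ replicate (n + 2 - i) 0) := by
        refine Finset.sum_congr rfl fun i hi => ?_
        rw [Finset.mem_range] at hi
        rw [e1 i (by omega)]
      rw [e3]
      ring
  -- the final constant
  obtain ⟨E, hE⟩ : ∃ E, E = ∑ i ∈ Finset.range n, c ^ i := ⟨_, rfl⟩
  have hE0 : 0 ≤ E := by rw [hE]; exact Finset.sum_nonneg fun i _ => by positivity
  obtain ⟨N, hN⟩ := exists_nat_ge (1 + 2 * C1 * E / κ)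
  have hNE : 0 ≤ 2 * C1 * E / κ := by positivity
  have hN1r : (1 : ℝ) ≤ N := by linarith
  have hN1 : 1 ≤ N := by exact_mod_cast hN1r
  have hN0 : (0 : ℝ) < N := by linarith
  have hbd : ∀ v, b v ≤ 2 * C1 * N / κ * (L (n + 1, v ::ₘ 0 ::ₘ 0) + L (n, v ::ₘ 0 ::ₘ 0 ::ₘ 0)) := by
    intro v
    have h1 := hrk v N hN1
    have hbv := (hb0 v).le
    rw [Finset.sum_range_succ, Finset.sum_range_succ, Finset.sum_range_succ] at h1
    have e2 : n + 2 - (n + 2) = 0 := by omega
    have e3 : n + 2 - (n + 1) = 1 := by omega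
    have e4 : n + 2 - n = 2 := by omega
    have e5 : L (n + 2, v ::ₘ replicate (n + 2 - (n + 2)) 0) = 0 := by
      rw [e2, replicate_zero]
      exact htop v
    have e6 : L (n + 1, v ::ₘ replicate (n + 2 - (n + 1)) 0) = L (n + 1, v ::ₘ 0 ::ₘ 0) := by
      rw [e3]; rfl
    have e7 : L (n, v ::ₘ replicate (n + 2 - n) 0) = L (n, v ::ₘ 0 ::ₘ 0 ::ₘ 0) := by
      rw [e4]; rfl
    rw [e5, e6, e7, mul_zero, add_zero] at h1
    obtain ⟨j2, hj2⟩ : ∃ x, x = L (n + 1, v ::ₘ 0 ::ₘ 0) := ⟨_, rfl⟩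
    obtain ⟨j3, hj3⟩ : ∃ x, x = L (n, v ::ₘ 0 ::ₘ 0 ::ₘ 0) := ⟨_, rfl⟩
    have hj20 : 0 ≤ j2 := by rw [hj2]; exact hLnn _
    have hj30 : 0 ≤ j3 := by rw [hj3]; exact hLnn _
    rw [← hj2, ← hj3] at h1 ⊢
    have h2 : (N : ℝ) * ∑ i ∈ Finset.range n, (N : ℝ) ^ i * L (i, v ::ₘ replicate (n + 2 - i) 0) ≤
        (N : ℝ) ^ n * (E * b v) := by
      rw [hE, Finset.sum_mul, Finset.mul_sum, Finset.mul_sum]
      refine Finset.sum_le_sum fun i hi => ?_
      rw [Finset.mem_range] at hi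
      have h3 := hLc i (by omega) v
      have h4 : (N : ℝ) ^ (i + 1) ≤ (N : ℝ) ^ n := pow_le_pow_right₀ hN1r (by omega)
      have h5 : 0 ≤ c ^ i * b v := by positivity
      calc (N : ℝ) * ((N : ℝ) ^ i * L (i, v ::ₘ replicate (n + 2 - i) 0)) =
          (N : ℝ) ^ (i + 1) * L (i, v ::ₘ replicate (n + 2 - i) 0) := by ring
        _ ≤ (N : ℝ) ^ (i + 1) * (c ^ i * b v) := mul_le_mul_of_nonneg_left h3 (by positivity)
        _ ≤ _ := mul_le_mul_of_nonneg_right h4 h5
    have h3 : b v * ((N : ℝ) ^ (n + 1) * κ) ≤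
        C1 * ((N : ℝ) ^ n * (E * b v) + (N : ℝ) ^ (n + 1) * j3 + (N : ℝ) ^ (n + 2) * j2) := by
      refine h1.trans ?_
      calc _ = C1 * ((N : ℝ) * ∑ i ∈ Finset.range n, (N : ℝ) ^ i *
            L (i, v ::ₘ replicate (n + 2 - i) 0) + (N : ℝ) ^ (n + 1) * j3 +
              (N : ℝ) ^ (n + 2) * j2) := by ring
        _ ≤ _ := by gcongr
    have h4 : b v * (N * κ) ≤ C1 * (E * b v + N * j3 + (N : ℝ) ^ 2 * j2) := by
      have hNn : (0 : ℝ) < (N : ℝ) ^ n := by positivity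
      refine le_of_mul_le_mul_left ?_ hNn
      calc (N : ℝ) ^ n * (b v * (N * κ)) = b v * ((N : ℝ) ^ (n + 1) * κ) := by ring
        _ ≤ _ := h3
        _ = _ := by ring
    have h5 : 2 * (C1 * (E * b v)) ≤ b v * (N * κ) := by
      have h6 : 2 * C1 * E / κ ≤ N := by linarith
      rw [div_le_iff₀ hκ0] at h6
      have := mul_le_mul_of_nonneg_left h6 hbv
      linarith
    have h7 : b v * (N * κ) ≤ 2 * C1 * (N * j3 + (N : ℝ) ^ 2 * j2) := by
      have : C1 * (E * b v + N * j3 + (N : ℝ) ^ 2 * j2) =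
        C1 * (E * b v) + C1 * (N * j3 + (N : ℝ) ^ 2 * j2) := by ring
      linarith
    have h8 : (N : ℝ) * j3 + (N : ℝ) ^ 2 * j2 ≤ (N : ℝ) ^ 2 * (j2 + j3) := by
      have : (N : ℝ) * j3 ≤ (N : ℝ) ^ 2 * j3 := by
        apply mul_le_mul_of_nonneg_right _ hj30
        nlinarith
      linarith
    have h9 : b v * (N * κ) ≤ 2 * C1 * ((N : ℝ) ^ 2 * (j2 + j3)) :=
      h7.trans (mul_le_mul_of_nonneg_left h8 (by positivity))
    have h10 : b v * κ ≤ 2 * C1 * (N * (j2 + j3)) := by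
      refine le_of_mul_le_mul_left ?_ hN0
      calc (N : ℝ) * (b v * κ) = b v * (N * κ) := by ring
        _ ≤ _ := h9
        _ = _ := by ring
    rw [div_mul_eq_mul_div, le_div_iff₀ hκ0]
    linarith
  -- the structure
  obtain ⟨C, hC⟩ : ∃ C, C = 2 * C1 * N / κ + c ^ (n + 1) := ⟨_, rfl⟩
  have hCa : 0 < 2 * C1 * N / κ := by positivity
  have hCb : 0 < c ^ (n + 1) := by positivity
  refine ⟨fun s => L (n + 1, s), fun s => L (n, s), Pool.Agent.N769.RK.CC (n + 3) t φ H, C, κ, ?_⟩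
  refine ⟨by rw [hC]; positivity, hκ0, fun v => le_max_left _ _, fun s => hLnn _, ?_,
    fun s => hLnn _, fun u s => hLinv u _ s, fun u s => hLinv u _ s, hκ.symm, ?_, ?_,
    fun v w s => hdom _ v w s, ?_, ?_⟩
  · intro s hs
    exact hLz _ _ (by omega)
  · -- exJ
    intro x y z w
    have h1 := hL1 {f | f (n + 1, x ::ₘ y ::ₘ 0) * f (n + 1, z ::ₘ w ::ₘ 0) ≤
        2 * (f (n + 1, x ::ₘ z ::ₘ 0) * f (n + 1, y ::ₘ w ::ₘ 0) +
          f (n + 1, x ::ₘ w ::ₘ 0) * f (n + 1, y ::ₘ z ::ₘ 0))}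
      (isClosed_le (by fun_prop) (by fun_prop)) (fun a => Eventually.of_forall fun q => ?_)
    · exact h1
    · change Qf (n + 3) t φ H m M a q (n + 1, x ::ₘ y ::ₘ 0) *
        Qf (n + 3) t φ H m M a q (n + 1, z ::ₘ w ::ₘ 0) ≤
        2 * (Qf (n + 3) t φ H m M a q (n + 1, x ::ₘ z ::ₘ 0) *
          Qf (n + 3) t φ H m M a q (n + 1, y ::ₘ w ::ₘ 0) +
          Qf (n + 3) t φ H m M a q (n + 1, x ::ₘ w ::ₘ 0) *
          Qf (n + 3) t φ H m M a q (n + 1, y ::ₘ z ::ₘ 0))
      have e : ∀ u v : Lat r, Qf (n + 3) t φ H m M a q (n + 1, u ::ₘ v ::ₘ 0) =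
          t (φ u H ::ₘ φ v H ::ₘ replicate (n + 1) (M a q)) / m q ^ (n + 1) := by
        intro u v
        rw [Qf_eq a q (n + 1) _ (by rw [card_cons, card_cons, card_zero]; omega), map_cons,
          map_cons, map_zero, add_cons, add_cons, add_zero]
      rw [e, e, e, e, e, e]
      have h2 := h.ex (replicate (n + 1) (M a q)) (by rw [card_replicate]) (φ x H) (φ y H)
        (φ z H) (φ w H)
      have hk : 0 < (m q ^ (n + 1))⁻¹ := by
        have := hm0 q
        positivity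
      have h3 := mul_le_mul_of_nonneg_left h2 (mul_pos hk hk).le
      simp only [div_eq_mul_inv]
      calc _ = (m q ^ (n + 1))⁻¹ * (m q ^ (n + 1))⁻¹ *
          (t (φ x H ::ₘ φ y H ::ₘ replicate (n + 1) (M a q)) *
            t (φ z H ::ₘ φ w H ::ₘ replicate (n + 1) (M a q))) := by ring
        _ ≤ _ := h3
        _ = _ := by ring
  · -- exT
    intro x y z w
    have h1 := hL1 {f | f (n, x ::ₘ y ::ₘ z ::ₘ 0) * f (n + 1, w ::ₘ z ::ₘ 0) ≤
        2 * (f (n, x ::ₘ w ::ₘ z ::ₘ 0) * f (n + 1, y ::ₘ z ::ₘ 0) +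
          f (n + 1, x ::ₘ z ::ₘ 0) * f (n, y ::ₘ w ::ₘ z ::ₘ 0))}
      (isClosed_le (by fun_prop) (by fun_prop)) (fun a => Eventually.of_forall fun q => ?_)
    · exact h1
    · change Qf (n + 3) t φ H m M a q (n, x ::ₘ y ::ₘ z ::ₘ 0) *
        Qf (n + 3) t φ H m M a q (n + 1, w ::ₘ z ::ₘ 0) ≤
        2 * (Qf (n + 3) t φ H m M a q (n, x ::ₘ w ::ₘ z ::ₘ 0) *
          Qf (n + 3) t φ H m M a q (n + 1, y ::ₘ z ::ₘ 0) +
          Qf (n + 3) t φ H m M a q (n + 1, x ::ₘ z ::ₘ 0) *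
          Qf (n + 3) t φ H m M a q (n, y ::ₘ w ::ₘ z ::ₘ 0))
      have e2 : ∀ u v : Lat r, Qf (n + 3) t φ H m M a q (n + 1, u ::ₘ v ::ₘ 0) =
          t (φ u H ::ₘ M a q ::ₘ (φ v H ::ₘ replicate n (M a q))) / m q ^ (n + 1) := by
        intro u v
        rw [Qf_eq a q (n + 1) _ (by rw [card_cons, card_cons, card_zero]; omega), map_cons,
          map_cons, map_zero, add_cons, add_cons, add_zero, replicate_succ,
          cons_swap (φ v H) (M a q)]
      have e3 : ∀ u v w : Lat r, Qf (n + 3) t φ H m M a q (n, u ::ₘ v ::ₘ w ::ₘ 0) =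
          t (φ u H ::ₘ φ v H ::ₘ (φ w H ::ₘ replicate n (M a q))) / m q ^ n := by
        intro u v w
        rw [Qf_eq a q n _ (by rw [card_cons, card_cons, card_cons, card_zero]; omega), map_cons,
          map_cons, map_cons, map_zero, add_cons, add_cons, add_cons, add_zero]
      rw [e2, e2, e2, e3, e3, e3]
      have h2 := h.ex (φ z H ::ₘ replicate n (M a q)) (by rw [card_cons, card_replicate])
        (φ x H) (φ y H) (φ w H) (M a q)
      have hk : 0 < (m q ^ n)⁻¹ := by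
        have := hm0 q
        positivity
      have hk' : 0 < (m q ^ (n + 1))⁻¹ := by
        have := hm0 q
        positivity
      have h3 := mul_le_mul_of_nonneg_left h2 (mul_pos hk hk').le
      simp only [div_eq_mul_inv]
      calc _ = (m q ^ n)⁻¹ * (m q ^ (n + 1))⁻¹ *
          (t (φ x H ::ₘ φ y H ::ₘ φ z H ::ₘ replicate n (M a q)) *
            t (φ w H ::ₘ M a q ::ₘ φ z H ::ₘ replicate n (M a q))) := by ring
        _ ≤ _ := h3
        _ = _ := by ring
  · -- leJ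
    intro v
    have h1 := hLc (n + 1) (by omega) v
    have e3 : n + 2 - (n + 1) = 1 := by omega
    rw [e3] at h1
    refine h1.trans ?_
    rw [← hb]
    refine mul_le_mul_of_nonneg_right ?_ (hb0 v).le
    rw [hC]
    linarith
  · intro v
    rw [← hb]
    refine (hbd v).trans (mul_le_mul_of_nonneg_right ?_ (add_nonneg (hLnn _) (hLnn _)))
    rw [hC]
    linarith

end

end Pool.Agent.H96.QU
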