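import Pool.Agent.H96.QU.Lim
import Pool.Graph.R_pool_sql_team_seeded_63374d34.N478.RK.A
import Pool.Graph.R_pool_sql_team_seeded_63374d34.N136.RK.Eig

/-!
Quartic growth: from the relations between the limit forms of degree two and three (helper96).
-/

set_option autoImplicit false

open Multiset Filter Topology
open Pool.Agent.N110 Pool.Agent.N110.RK

namespace Pool.Agent.H96.QU

section

variable {r : ℕ} {b : Lat r → ℝ} {J T : Multiset (Lat r) → ℝ} {D : Lat r → ℝ} {C κ : ℝ}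

theorem QR.fm (h : QR b J T D C κ) : Fm D (1 + 1) (fun s => κ⁻¹ * J s) 0 := by
  have hκ := h.hκ
  have hκi : 0 < κ⁻¹ := inv_pos.2 hκ
  refine ⟨fun s => mul_nonneg hκi.le (h.nnJ s), fun s hs => ?_, ?_, fun v w s => ?_, ?_,
    fun u s => ?_⟩
  · rw [h.zJ s hs, mul_zero]
  · change κ⁻¹ * J (replicate 2 0) = 1
    rw [h.one]
    exact inv_mul_cancel₀ hκ.ne'
  · have h1 := mul_le_mul_of_nonneg_left (h.dom v w s) hκi.le
    calc _ ≤ _ := h1
      _ = _ := by ring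
  · intro θs _ hl x y z w
    have hnil : θs = [] := List.eq_nil_of_length_eq_zero (by omega)
    subst hnil
    change κ⁻¹ * J _ * (κ⁻¹ * J _) ≤ 2 * (κ⁻¹ * J _ * (κ⁻¹ * J _) + κ⁻¹ * J _ * (κ⁻¹ * J _))
    have h1 := mul_le_mul_of_nonneg_left (h.exJ x y z w) (mul_pos hκi hκi).le
    calc _ = κ⁻¹ * κ⁻¹ * (J (x ::ₘ y ::ₘ 0) * J (z ::ₘ w ::ₘ 0)) := by ring
      _ ≤ _ := h1
      _ = _ := by ring
  · change κ⁻¹ * J _ = _
    rw [h.invJ]
    simp

/-- the two inequalities for the elements of the cone -/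
theorem cone_ineq {J' : Multiset (Lat r) → ℝ}
    (hex : ∀ a b c d, J' (a ::ₘ b ::ₘ 0) * J' (c ::ₘ d ::ₘ 0) ≤
    2 * (J' (a ::ₘ c ::ₘ 0) * J' (b ::ₘ d ::ₘ 0) + J' (a ::ₘ d ::ₘ 0) * J' (b ::ₘ c ::ₘ 0)))
    (h1 : J' (0 ::ₘ 0 ::ₘ 0) = 1) {X : Multiset (Lat r) → ℝ} (hX : X ∈ cone J') :
    (∀ z, X {z} ≤ 4 * J' (z ::ₘ 0 ::ₘ 0) * X {0}) ∧
    ∀ x y z, J' (x ::ₘ y ::ₘ 0) * X {z} ≤
      2 * (J' (x ::ₘ z ::ₘ 0) * X {y} + X {x} * J' (y ::ₘ z ::ₘ 0)) := by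
  have hcl : IsClosed {X : Multiset (Lat r) → ℝ | (∀ z, X {z} ≤ 4 * J' (z ::ₘ 0 ::ₘ 0) * X {0}) ∧
    ∀ x y z, J' (x ::ₘ y ::ₘ 0) * X {z} ≤
      2 * (J' (x ::ₘ z ::ₘ 0) * X {y} + X {x} * J' (y ::ₘ z ::ₘ 0))} := by
    refine IsClosed.inter ?_ ?_
    · have e : {X : Multiset (Lat r) → ℝ | ∀ z, X {z} ≤ 4 * J' (z ::ₘ 0 ::ₘ 0) * X {0}} =
          ⋂ z, {X : Multiset (Lat r) → ℝ | X {z} ≤ 4 * J' (z ::ₘ 0 ::ₘ 0) * X {0}} := by
        ext X; simp
      change IsClosed {X : Multiset (Lat r) → ℝ | ∀ z, X {z} ≤ 4 * J' (z ::ₘ 0 ::ₘ 0) * X {0}}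
      rw [e]
      exact isClosed_iInter fun z => isClosed_le (by fun_prop) (by fun_prop)
    · have e : {X : Multiset (Lat r) → ℝ | ∀ x y z, J' (x ::ₘ y ::ₘ 0) * X {z} ≤
          2 * (J' (x ::ₘ z ::ₘ 0) * X {y} + X {x} * J' (y ::ₘ z ::ₘ 0))} =
          ⋂ x, ⋂ y, ⋂ z, {X : Multiset (Lat r) → ℝ | J' (x ::ₘ y ::ₘ 0) * X {z} ≤
          2 * (J' (x ::ₘ z ::ₘ 0) * X {y} + X {x} * J' (y ::ₘ z ::ₘ 0))} := by
        ext X; simp
      change IsClosed {X : Multiset (Lat r) → ℝ | ∀ x y z, J' (x ::ₘ y ::ₘ 0) * X {z} ≤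
          2 * (J' (x ::ₘ z ::ₘ 0) * X {y} + X {x} * J' (y ::ₘ z ::ₘ 0))}
      rw [e]
      exact isClosed_iInter fun x => isClosed_iInter fun y => isClosed_iInter fun z =>
        isClosed_le (by fun_prop) (by fun_prop)
  refine closure_minimal ?_ hcl hX
  rintro _ ⟨θ, hθ, rfl⟩
  have hm : ∀ z, mix θ J' {z} = ∑ v ∈ θ.support, θ v * J' (v ::ₘ z ::ₘ 0) := fun z => rfl
  refine ⟨fun z => ?_, fun x y z => ?_⟩
  · rw [hm, hm, Finset.mul_sum]
    refine Finset.sum_le_sum fun v _ => ?_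
    have h2 := hex v z 0 0
    rw [h1, mul_one] at h2
    have h3 := mul_le_mul_of_nonneg_left h2 (hθ v)
    calc _ ≤ _ := h3
      _ = _ := by ring
  · rw [hm, hm, hm, Finset.mul_sum, Finset.mul_sum, Finset.sum_mul, ← Finset.sum_add_distrib,
      Finset.mul_sum]
    refine Finset.sum_le_sum fun v _ => ?_
    have h2 := hex x y z v
    have e : ∀ u : Lat r, u ::ₘ v ::ₘ (0 : Multiset (Lat r)) = v ::ₘ u ::ₘ 0 := fun u =>
      cons_swap _ _ _
    rw [e z, e y, e x] at h2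
    have h3 := mul_le_mul_of_nonneg_left h2 (hθ v)
    calc _ = θ v * (J' (x ::ₘ y ::ₘ 0) * J' (v ::ₘ z ::ₘ 0)) := by ring
      _ ≤ _ := h3
      _ = _ := by ring

theorem nonpos_of_exp {x B : ℝ} (h : ∀ ε : ℝ, 0 < ε → ∃ B : ℝ, ∀ l : ℕ,
    Real.exp (l * x) ≤ B * Real.exp (ε * l)) : x ≤ 0 := by
  by_contra hx
  push Not at hx
  obtain ⟨B, hB⟩ := h (x / 2) (by positivity)
  have h1 : ∀ l : ℕ, Real.exp (l * (x / 2)) ≤ B := by
    intro l
    have h2 := hB l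
    have h3 : Real.exp (l * x) = Real.exp (l * (x / 2)) * Real.exp (x / 2 * l) := by
      rw [← Real.exp_add]; congr 1; ring
    rw [h3] at h2
    exact le_of_mul_le_mul_right h2 (Real.exp_pos _)
  obtain ⟨l, hl⟩ := exists_nat_gt (B / (x / 2))
  rw [div_lt_iff₀ (by positivity)] at hl
  have h2 := h1 l
  have h3 := Real.add_one_le_exp ((l : ℝ) * (x / 2))
  linarith

/-- zero growth: the form of degree two grows at most quadratically -/
theorem QR.sub (h : QR b J T D C κ) (hz : ∀ (v : Lat r) (ε : ℝ), 0 < ε → ∃ B : ℝ, ∀ l : ℕ,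
    b (l • v) ≤ B * Real.exp (ε * l)) (x y z : Lat r) :
    J (x ::ₘ y ::ₘ 0) ≤ 2 * (J (x ::ₘ z ::ₘ 0) + J (y ::ₘ z ::ₘ 0)) := by
  have hκ := h.hκ
  have hκi : 0 < κ⁻¹ := inv_pos.2 hκ
  obtain ⟨X, hX, ψ, hF⟩ := Pool.Agent.N478.RK.leafA Pool.Agent.N136.RK.eig r D h.hD 1 _ 0 h.fm
  have h1 : (fun s => κ⁻¹ * J s) (0 ::ₘ 0 ::ₘ (0 : Multiset (Lat r))) = 1 := by
    change κ⁻¹ * J (replicate 2 0) = 1
    rw [h.one]
    exact inv_mul_cancel₀ hκ.ne'
  obtain ⟨hi, hii⟩ := cone_ineq (J' := fun s => κ⁻¹ * J s) (fun x y z w => by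
    have h1 := mul_le_mul_of_nonneg_left (h.exJ x y z w) (mul_pos hκi hκi).le
    calc _ = κ⁻¹ * κ⁻¹ * (J (x ::ₘ y ::ₘ 0) * J (z ::ₘ w ::ₘ 0)) := by ring
      _ ≤ _ := h1
      _ = _ := by ring) h1 hX
  have hX0 : X {0} = 1 := by
    have := hF.norm
    rwa [replicate_one] at this
  have hXe : ∀ v, X {v} = Real.exp (∑ i, ψ i * (v i : ℝ)) := by
    intro v
    have := hF.inv v {0}
    rwa [map_singleton, add_zero, hX0, mul_one] at this
  have hle : ∀ v : Lat r, ∑ i, ψ i * (v i : ℝ) ≤ 0 := by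
    intro v
    refine nonpos_of_exp (B := 0) fun ε hε => ?_
    obtain ⟨B, hB⟩ := hz v ε hε
    refine ⟨4 * κ⁻¹ * C * B, fun l => ?_⟩
    have h2 := hi (l • v)
    rw [hXe, hX0, mul_one] at h2
    have e1 : ∑ i, ψ i * ((l • v) i : ℝ) = l * ∑ i, ψ i * (v i : ℝ) := by
      rw [Finset.mul_sum]
      refine Finset.sum_congr rfl fun i _ => ?_
      rw [Pi.smul_apply, nsmul_eq_mul]
      push_cast
      ring
    rw [e1] at h2
    refine h2.trans ?_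
    have h3 := h.leJ (l • v)
    have h4 := hB l
    have h5 : C * b (l • v) ≤ C * (B * Real.exp (ε * l)) := mul_le_mul_of_nonneg_left h4 h.hC.le
    have h6 : 4 * (κ⁻¹ * J ((l • v) ::ₘ 0 ::ₘ 0)) ≤ 4 * (κ⁻¹ * (C * (B * Real.exp (ε * l)))) := by
      have := mul_le_mul_of_nonneg_left (h3.trans h5) hκi.le
      linarith
    calc _ ≤ _ := h6
      _ = _ := by ring
  have hX1 : ∀ v, X {v} = 1 := by
    intro v
    have h2 := hle v
    have h3 := hle (-v)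
    have e1 : ∑ i, ψ i * ((-v) i : ℝ) = - ∑ i, ψ i * (v i : ℝ) := by
      rw [← Finset.sum_neg_distrib]
      refine Finset.sum_congr rfl fun i _ => ?_
      rw [Pi.neg_apply]
      push_cast
      ring
    rw [e1] at h3
    rw [hXe, le_antisymm h2 (by linarith), Real.exp_zero]
  have h2 := hii x y z
  rw [hX1, hX1, hX1, mul_one, mul_one, one_mul] at h2
  have h3 : κ⁻¹ * J (x ::ₘ y ::ₘ 0) ≤
      κ⁻¹ * (2 * (J (x ::ₘ z ::ₘ 0) + J (y ::ₘ z ::ₘ 0))) := by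
    calc _ ≤ _ := h2
      _ = _ := by ring
  exact le_of_mul_le_mul_left h3 hκi

/-- **Quartic growth.** -/
theorem QR.quartic (h : QR b J T D C κ) (hz : ∀ (v : Lat r) (ε : ℝ), 0 < ε → ∃ B : ℝ, ∀ l : ℕ,
    b (l • v) ≤ B * Real.exp (ε * l)) :
    ∃ A : ℝ, 0 ≤ A ∧ ∀ (N : ℕ) (v : Lat r), (∀ i, |v i| ≤ N) → b v ≤ A * ((N : ℝ) + 1) ^ 4 := by
  classical
  have hκ := h.hκ
  have hC := h.hC
  have hsub := h.sub hz
  -- translations
  have iJ : ∀ u x y : Lat r, J ((u + x) ::ₘ (u + y) ::ₘ 0) = J (x ::ₘ y ::ₘ 0) := by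
    intro u x y
    have := h.invJ u (x ::ₘ y ::ₘ 0)
    rwa [map_cons, map_cons, map_zero] at this
  have iT : ∀ u x y z : Lat r, T ((u + x) ::ₘ (u + y) ::ₘ (u + z) ::ₘ 0) =
      T (x ::ₘ y ::ₘ z ::ₘ 0) := by
    intro u x y z
    have := h.invT u (x ::ₘ y ::ₘ z ::ₘ 0)
    rwa [map_cons, map_cons, map_cons, map_zero] at this
  obtain ⟨β, hβ⟩ : ∃ β : Lat r → ℝ, ∀ v, β v = J (v ::ₘ 0 ::ₘ 0) := ⟨_, fun _ => rfl⟩
  obtain ⟨a, ha⟩ : ∃ a : Lat r → ℝ, ∀ v, a v = T (v ::ₘ 0 ::ₘ 0 ::ₘ 0) := ⟨_, fun _ => rfl⟩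
  have hβ0 : ∀ v, 0 ≤ β v := fun v => by rw [hβ]; exact h.nnJ _
  have ha0 : ∀ v, 0 ≤ a v := fun v => by rw [ha]; exact h.nnT _
  have hone : J (0 ::ₘ 0 ::ₘ 0) = κ := h.one
  have hJvv : ∀ v, J (v ::ₘ v ::ₘ 0) = κ := by
    intro v
    have := iJ v 0 0
    rw [add_zero] at this
    rw [this, hone]
  have hβpos : ∀ v, 0 < β v := by
    intro v
    have h1 := h.exJ 0 0 v v
    rw [hone, hJvv, cons_swap 0 v, ← hβ] at h1
    rcases (hβ0 v).eq_or_lt with h2 | h2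
    · rw [← h2] at h1
      have : 0 < κ * κ := mul_pos hκ hκ
      linarith
    · exact h2
  have hβn : ∀ v, β (-v) = β v := by
    intro v
    have h1 := iJ v (-v) 0
    rw [add_neg_cancel, add_zero, cons_swap] at h1
    rw [hβ, hβ, ← h1]
  have hβadd : ∀ u w, β (u + w) ≤ 2 * (β u + β w) := by
    intro u w
    have h1 := hsub (u + w) 0 u
    have h2 := iJ u w 0
    rw [add_zero] at h2
    rw [h2, cons_swap 0 u, ← hβ, ← hβ, ← hβ] at h1
    linarith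
  have key : ∀ g k : Lat r, β k ≤ β g → a (g + k) ≤ 4 * a k + 4 * a (-g) + 8 * a g := by
    intro g k hkg
    have hg := hβpos g
    have h1 := h.exT k (-g) (-g) 0
    have h2 := h.exT k (-g) 0 0
    have e1 : T (k ::ₘ (-g) ::ₘ (-g) ::ₘ 0) = a (g + k) := by
      have := iT g k (-g) (-g)
      rw [add_neg_cancel] at this
      rw [← this, ha]
    have e2 : J (0 ::ₘ (-g) ::ₘ 0) = β g := by
      rw [cons_swap, ← hβ, hβn]
    have e3 : J (k ::ₘ (-g) ::ₘ 0) = β (g + k) := by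
      have := iJ g k (-g)
      rw [add_neg_cancel] at this
      rw [← this, hβ]
    have e4 : T ((-g) ::ₘ 0 ::ₘ (-g) ::ₘ 0) = a g := by
      have := iT g (-g) 0 (-g)
      rw [add_neg_cancel, add_zero, cons_swap 0 g] at this
      rw [← this, ha]
    have e5 : T (k ::ₘ 0 ::ₘ (-g) ::ₘ 0) = T (k ::ₘ (-g) ::ₘ 0 ::ₘ 0) := by
      rw [cons_swap 0 (-g)]
    rw [e1, e2, e3, e4, e5, hJvv] at h1
    rw [hone, ← ha, ← ha, ← hβ, ← hβ, hβn] at h2
    have h3 : β (g + k) ≤ 4 * β g := by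
      have := hβadd g k
      linarith
    have h4 : β (g + k) * a g ≤ 4 * β g * a g := mul_le_mul_of_nonneg_right h3 (ha0 g)
    have h5 : β k * a (-g) ≤ β g * a (-g) := mul_le_mul_of_nonneg_right hkg (ha0 _)
    have h6 : a (g + k) * β g ≤ (4 * a k + 4 * a (-g) + 8 * a g) * β g := by
      have h7 : 2 * (T (k ::ₘ (-g) ::ₘ 0 ::ₘ 0) * κ + β (g + k) * a g) ≤
          2 * (2 * (a k * β g + β k * a (-g)) + β (g + k) * a g) := by linarith
      calc _ ≤ _ := h1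
        _ ≤ _ := h7
        _ ≤ _ := by linarith
    exact le_of_mul_le_mul_right h6 hg
  obtain ⟨s, hs⟩ : ∃ s : Lat r → ℝ, ∀ v, s v = a v + a (-v) := ⟨_, fun _ => rfl⟩
  have hs0 : ∀ v, 0 ≤ s v := fun v => by rw [hs]; exact add_nonneg (ha0 _) (ha0 _)
  have hsadd' : ∀ g k : Lat r, β k ≤ β g → s (g + k) ≤ 4 * s k + 12 * s g := by
    intro g k hkg
    have h1 := key g k hkg
    have h2 := key (-g) (-k) (by rw [hβn, hβn]; exact hkg)
    have e1 : -g + -k = -(g + k) := by rw [neg_add]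
    rw [e1, neg_neg] at h2
    rw [hs, hs, hs]
    linarith
  have hsadd : ∀ (g k : Lat r) (S : ℝ), s g ≤ S → s k ≤ S → s (g + k) ≤ 16 * S := by
    intro g k S hg hk
    rcases le_total (β k) (β g) with h1 | h1
    · have := hsadd' g k h1
      linarith
    · have := hsadd' k g h1
      rw [add_comm g k]
      linarith
  -- the boxes
  obtain ⟨F, hF⟩ : ∃ F : Finset (Lat r), F = Fintype.piFinset (fun _ => Finset.Icc (-1 : ℤ) 1) :=
    ⟨_, rfl⟩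
  have hFm : ∀ v : Lat r, (∀ i, |v i| ≤ 1) → v ∈ F := by
    intro v hv
    rw [hF, Fintype.mem_piFinset]
    intro i
    rw [Finset.mem_Icc]
    exact abs_le.1 (hv i)
  obtain ⟨S0, hS0⟩ : ∃ S0, S0 = ∑ v ∈ F, s v := ⟨_, rfl⟩
  obtain ⟨B0, hB0⟩ : ∃ B0, B0 = ∑ v ∈ F, β v := ⟨_, rfl⟩
  have hS00 : 0 ≤ S0 := by rw [hS0]; exact Finset.sum_nonneg fun v _ => hs0 v
  have hB00 : 0 ≤ B0 := by rw [hB0]; exact Finset.sum_nonneg fun v _ => hβ0 v
  have hbox : ∀ (k : ℕ) (v : Lat r), (∀ i, |v i| ≤ 2 ^ k) →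
      s v ≤ 16 ^ k * S0 ∧ β v ≤ 4 ^ k * B0 := by
    intro k
    induction k with
    | zero =>
      intro v hv
      have h1 : v ∈ F := hFm v fun i => by have := hv i; rwa [pow_zero] at this
      rw [pow_zero, pow_zero, one_mul, one_mul, hS0, hB0]
      exact ⟨Finset.single_le_sum (f := s) (fun v _ => hs0 v) h1,
        Finset.single_le_sum (f := β) (fun v _ => hβ0 v) h1⟩
    | succ k ih =>
      intro v hv
      obtain ⟨P, hP⟩ : ∃ P : ℤ, P = 2 ^ k := ⟨_, rfl⟩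
      have hv' : ∀ i, |v i| ≤ 2 * P := fun i => by
        have := hv i
        rw [pow_succ] at this
        rw [hP]
        linarith
      obtain ⟨u, hu⟩ : ∃ u : Lat r, ∀ i, u i = v i / 2 := ⟨fun i => v i / 2, fun _ => rfl⟩
      obtain ⟨w, hw⟩ : ∃ w : Lat r, ∀ i, w i = v i - v i / 2 := ⟨fun i => v i - v i / 2, fun _ => rfl⟩
      have e : v = u + w := by
        funext i
        rw [Pi.add_apply, hu, hw]
        ring
      have h1 := ih u fun i => by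
        rw [hu, ← hP, abs_le]
        have := abs_le.1 (hv' i)
        omega
      have h2 := ih w fun i => by
        rw [hw, ← hP, abs_le]
        have := abs_le.1 (hv' i)
        omega
      rw [e]
      refine ⟨?_, ?_⟩
      · have := hsadd u w _ h1.1 h2.1
        rw [pow_succ]
        linarith
      · have := hβadd u w
        rw [pow_succ]
        linarith [h1.2, h2.2]
  refine ⟨C * (16 * (B0 + S0)), by positivity, fun N v hv => ?_⟩
  obtain ⟨k, hk⟩ : ∃ k, k = Nat.log 2 (N + 1) + 1 := ⟨_, rfl⟩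
  have hk1 : N + 1 < 2 ^ k := by rw [hk]; exact Nat.lt_pow_succ_log_self (by norm_num) _
  have hk2 : 2 ^ k ≤ 2 * (N + 1) := by
    rw [hk, pow_succ, mul_comm]
    exact Nat.mul_le_mul_left 2 (Nat.pow_log_le_self 2 (by omega))
  obtain ⟨h1, h2⟩ := hbox k v fun i => by
    refine (hv i).trans ?_
    have : N ≤ 2 ^ k := by omega
    exact_mod_cast this
  have hk2r : (2 : ℝ) ^ k ≤ 2 * ((N : ℝ) + 1) := by exact_mod_cast hk2
  have h16 : (16 : ℝ) ^ k ≤ 16 * ((N : ℝ) + 1) ^ 4 := by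
    have e1 : (16 : ℝ) ^ k = (2 ^ k) ^ 4 := by
      rw [← pow_mul, mul_comm, pow_mul]; norm_num
    rw [e1]
    calc ((2 : ℝ) ^ k) ^ 4 ≤ (2 * ((N : ℝ) + 1)) ^ 4 := pow_le_pow_left₀ (by positivity) hk2r 4
      _ = _ := by ring
  have h4 : (4 : ℝ) ^ k ≤ 16 ^ k := pow_le_pow_left₀ (by norm_num) (by norm_num) k
  have h3 := h.bd v
  rw [← hβ, ← ha] at h3
  have h5 : a v ≤ s v := by
    rw [hs]
    have := ha0 (-v)
    linarith
  have h6 : β v + a v ≤ 16 ^ k * (B0 + S0) := by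
    have : (4 : ℝ) ^ k * B0 ≤ 16 ^ k * B0 := mul_le_mul_of_nonneg_right h4 hB00
    linarith
  calc b v ≤ C * (β v + a v) := h3
    _ ≤ C * (16 ^ k * (B0 + S0)) := mul_le_mul_of_nonneg_left h6 hC.le
    _ ≤ C * (16 * ((N : ℝ) + 1) ^ 4 * (B0 + S0)) := by
      have : (16 : ℝ) ^ k * (B0 + S0) ≤ 16 * ((N : ℝ) + 1) ^ 4 * (B0 + S0) :=
        mul_le_mul_of_nonneg_right h16 (by positivity)
      exact mul_le_mul_of_nonneg_left this hC.le
    _ = _ := by ring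

end

end Pool.Agent.H96.QU
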