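import Pool.Graph.R_pool_sql_team_seeded_63374d34.N110.RK.Stm
import Pool.Graph.R_pool_sql_team_seeded_63374d34.N769.RK.GE

/-!
Quartic growth: the inequality for one almost invariant class (helper96).
-/

set_option autoImplicit false

open Multiset Filter Topology
open Pool.Agent.N110 Pool.Agent.N110.RK

namespace Pool.Agent.H96.QU

variable {α : Type} {n : ℕ} {t : Multiset α → ℝ} {mul : α → α → α}

/-- The degree of `X` is bounded by the mixed degrees with the powers of `Mq`. -/
theorem rk_level (hpos : ∀ s : Multiset α, s.card = n + 3 → 0 < t s) (hex : Exch (n + 3) t)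
    (hmul : ∀ a b (s : Multiset α), s.card + 1 = n + 3 →
      t (mul a b ::ₘ s) = t (a ::ₘ s) + t (b ::ₘ s)) (H X Mq : α) (m : ℝ) (N : ℕ) (hm : 1 ≤ m)
    (hN : 1 ≤ N) (c : ℝ) (hc : 0 < c) (hle : Le (n + 3) t (c * m) Mq H) :
    t (X ::ₘ replicate (n + 2) H) * ((N : ℝ) ^ (n + 1) *
        (t (replicate (n + 1) Mq + replicate 2 H) / m ^ (n + 1))) ≤
      16 ^ (n + 2) * N * (c + 2) * t (replicate (n + 3) H) *
        ∑ i ∈ Finset.range (n + 3), (N : ℝ) ^ i *
          (t (replicate i Mq + (X ::ₘ replicate (n + 2 - i) H)) / m ^ i) := by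
  have hm0 : (0 : ℝ) < m := by linarith
  have hNr : (1 : ℝ) ≤ N := by exact_mod_cast hN
  have hN0 : (0 : ℝ) < N := by linarith
  obtain ⟨k, hk⟩ : ∃ k : ℕ, k = ⌈m⌉₊ := ⟨_, rfl⟩
  have hkm : m ≤ k := by rw [hk]; exact Nat.le_ceil m
  have hk2 : (k : ℝ) ≤ 2 * m := by
    have h1 : (⌈m⌉₊ : ℝ) < m + 1 := Nat.ceil_lt_add_one hm0.le
    rw [hk]
    linarith
  have hk1 : 1 ≤ k := by
    have : (1 : ℝ) ≤ k := hm.trans hkm
    exact_mod_cast this
  have hk0 : (0 : ℝ) < k := by linarith
  obtain ⟨M', hM'⟩ := Pool.Agent.N769.RK.exists_mul hmul Mq (N - 1)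
  obtain ⟨H', hH'⟩ := Pool.Agent.N769.RK.exists_mul hmul H (k - 1)
  rw [show N - 1 + 1 = N by omega] at hM'
  rw [show k - 1 + 1 = k by omega] at hH'
  obtain ⟨D, hD⟩ : ∃ D, D = mul M' H' := ⟨_, rfl⟩
  have hDs : ∀ s : Multiset α, s.card + 1 = n + 3 →
      t (D ::ₘ s) = N * t (Mq ::ₘ s) + k * t (H ::ₘ s) := by
    intro s hs
    rw [hD, hmul _ _ s hs, hM' s hs, hH' s hs]
  have hrk := rkt1 hpos hex D X (replicate (n + 2) H) 0 (by rw [card_zero, card_replicate]; omega)
  rw [card_replicate, add_zero, add_zero, add_zero] at hrk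
  obtain ⟨τ, hτ⟩ : ∃ τ, τ = t (replicate (n + 3) H) := ⟨_, rfl⟩
  have hτ0 : 0 < τ := by rw [hτ]; exact hpos _ (card_replicate _ _)
  -- (1)
  have h1 : t (D ::ₘ replicate (n + 2) H) ≤ N * m * (c + 2) * τ := by
    rw [hDs _ (by rw [card_replicate])]
    have a1 : t (Mq ::ₘ replicate (n + 2) H) ≤ c * m * τ := by
      have := hle (replicate (n + 2) H) (by rw [card_replicate])
      rwa [← replicate_succ, ← hτ] at this
    have a2 : t (H ::ₘ replicate (n + 2) H) = τ := by rw [← replicate_succ, hτ]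
    rw [a2]
    have a3 : (N : ℝ) * t (Mq ::ₘ replicate (n + 2) H) ≤ N * (c * m * τ) :=
      mul_le_mul_of_nonneg_left a1 hN0.le
    have a4 : (k : ℝ) * τ ≤ 2 * m * τ := mul_le_mul_of_nonneg_right hk2 hτ0.le
    have a5 : 2 * m * τ ≤ N * (2 * m * τ) := le_mul_of_one_le_left (by positivity) hNr
    calc _ ≤ N * (c * m * τ) + N * (2 * m * τ) := by linarith
      _ = _ := by ring
  -- (2)
  have h2 : (N : ℝ) ^ (n + 1) * m ^ 2 * t (replicate (n + 1) Mq + replicate 2 H) ≤
      t (replicate (n + 3) D) := by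
    have a1 : Le (n + 3) t (1 / N) Mq D := by
      intro s hs
      rw [hDs s hs, one_div, ← div_eq_inv_mul, le_div_iff₀ hN0]
      have := hpos (H ::ₘ s) (by rw [card_cons]; exact hs)
      have h3 : 0 < (k : ℝ) * t (H ::ₘ s) := by positivity
      linarith
    have a2 : Le (n + 3) t (1 / k) H D := by
      intro s hs
      rw [hDs s hs, one_div, ← div_eq_inv_mul, le_div_iff₀ hk0]
      have := hpos (Mq ::ₘ s) (by rw [card_cons]; exact hs)
      have h3 : 0 < (N : ℝ) * t (Mq ::ₘ s) := by positivity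
      linarith
    have b1 := a1.rep (by positivity) (n + 1) (replicate 2 H) (by rw [card_replicate]; omega)
    have b2 := a2.rep (by positivity) 2 (replicate (n + 1) D) (by rw [card_replicate])
    rw [← replicate_add, show 2 + (n + 1) = n + 3 by omega, div_pow, one_pow, one_div,
      ← div_eq_inv_mul, le_div_iff₀ (by positivity)] at b2
    rw [div_pow, one_pow, one_div, ← div_eq_inv_mul, le_div_iff₀ (by positivity),
      add_comm (replicate (n + 1) D)] at b1
    have b3 : 0 < t (replicate 2 H + replicate (n + 1) D) :=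
      hpos _ (by rw [card_add, card_replicate, card_replicate] <;> omega)
    have b4 : m ^ 2 ≤ (k : ℝ) ^ 2 := pow_le_pow_left₀ hm0.le hkm 2
    have b5 : 0 < t (replicate (n + 1) Mq + replicate 2 H) :=
      hpos _ (by rw [card_add, card_replicate, card_replicate])
    calc (N : ℝ) ^ (n + 1) * m ^ 2 * t (replicate (n + 1) Mq + replicate 2 H) =
        m ^ 2 * (t (replicate (n + 1) Mq + replicate 2 H) * (N : ℝ) ^ (n + 1)) := by ring
      _ ≤ (k : ℝ) ^ 2 * (t (replicate 2 H + replicate (n + 1) D)) :=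
        mul_le_mul b4 b1 (by positivity) (by positivity)
      _ = t (replicate 2 H + replicate (n + 1) D) * (k : ℝ) ^ 2 := by ring
      _ ≤ _ := b2
  -- (3)
  obtain ⟨Sg, hSg⟩ : ∃ Sg, Sg = ∑ i ∈ Finset.range (n + 3), (N : ℝ) ^ i *
          (t (replicate i Mq + (X ::ₘ replicate (n + 2 - i) H)) / m ^ i) := ⟨_, rfl⟩
  have htpos : ∀ i, i ≤ n + 2 →
      0 < t (replicate i Mq + (X ::ₘ replicate (n + 2 - i) H)) := fun i hi =>
    hpos _ (by rw [card_add, card_cons, card_replicate, card_replicate] <;> omega)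
  have hSg0 : 0 ≤ Sg := by
    rw [hSg]
    refine Finset.sum_nonneg fun j hj => ?_
    rw [Finset.mem_range] at hj
    have := htpos j (by omega)
    positivity
  have h3 : t (X ::ₘ replicate (n + 2) D) ≤ 2 ^ (n + 2) * (2 ^ (n + 2) * m ^ (n + 2) * Sg) := by
    have e1 : X ::ₘ replicate (n + 2) D = replicate (n + 2) D + {X} := by
      rw [add_comm (replicate (n + 2) D) {X}, singleton_add]
    rw [e1]
    refine expand (n := n + 3) (D := D) (M := M') (H := H') (v := 1) one_pos ?_ (n + 2) {X}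
      (2 ^ (n + 2) * m ^ (n + 2) * Sg) (by rw [card_singleton]; omega) ?_
    · intro s hs
      rw [hD, hmul _ _ s hs, one_mul]
    · intro i hi
      rw [one_pow, one_mul]
      have a1 : Le (n + 3) t N M' Mq := fun s hs => (hM' s hs).le
      have a2 : Le (n + 3) t k H' H := fun s hs => (hH' s hs).le
      have b1 := a1.rep hN0.le i (replicate (n + 2 - i) H' + {X})
        (by rw [card_add, card_replicate, card_singleton]; omega)
      have b2 := a2.rep hk0.le (n + 2 - i) (replicate i Mq + {X})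
        (by rw [card_add, card_replicate, card_singleton]; omega)
      have e2 : replicate i Mq + (replicate (n + 2 - i) H' + {X}) =
          replicate (n + 2 - i) H' + (replicate i Mq + {X}) := by
        rw [← add_assoc, ← add_assoc, add_comm (replicate i Mq)]
      have e3 : replicate (n + 2 - i) H + (replicate i Mq + {X}) =
          replicate i Mq + (X ::ₘ replicate (n + 2 - i) H) := by
        rw [← add_assoc, add_comm (replicate (n + 2 - i) H), add_assoc,
          add_comm (replicate (n + 2 - i) H), singleton_add]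
      rw [e2] at b1
      rw [e3] at b2
      have b3 : t (replicate i M' + (replicate (n + 2 - i) H' + {X})) ≤
          (N : ℝ) ^ i * ((k : ℝ) ^ (n + 2 - i) *
            t (replicate i Mq + (X ::ₘ replicate (n + 2 - i) H))) := by
        exact b1.trans (mul_le_mul_of_nonneg_left b2 (by positivity))
      refine b3.trans ?_
      have ht := htpos i hi
      have b4 : (N : ℝ) ^ i *
          (t (replicate i Mq + (X ::ₘ replicate (n + 2 - i) H)) / m ^ i) ≤ Sg := by
        rw [hSg]
        refine Finset.single_le_sum (f := fun i => (N : ℝ) ^ i *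
          (t (replicate i Mq + (X ::ₘ replicate (n + 2 - i) H)) / m ^ i)) ?_
          (Finset.mem_range.2 (by omega))
        intro j hj
        rw [Finset.mem_range] at hj
        have := htpos j (by omega)
        positivity
      have b5 : (k : ℝ) ^ (n + 2 - i) ≤ 2 ^ (n + 2) * m ^ (n + 2 - i) := by
        calc (k : ℝ) ^ (n + 2 - i) ≤ (2 * m) ^ (n + 2 - i) := pow_le_pow_left₀ hk0.le hk2 _
          _ = 2 ^ (n + 2 - i) * m ^ (n + 2 - i) := mul_pow _ _ _
          _ ≤ _ := by
            apply mul_le_mul_of_nonneg_right _ (by positivity)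
            exact pow_le_pow_right₀ (by norm_num) (by omega)
      calc (N : ℝ) ^ i * ((k : ℝ) ^ (n + 2 - i) *
            t (replicate i Mq + (X ::ₘ replicate (n + 2 - i) H))) ≤
          (N : ℝ) ^ i * ((2 ^ (n + 2) * m ^ (n + 2 - i)) *
            t (replicate i Mq + (X ::ₘ replicate (n + 2 - i) H))) := by gcongr
        _ = 2 ^ (n + 2) * m ^ (n + 2) * ((N : ℝ) ^ i *
          (t (replicate i Mq + (X ::ₘ replicate (n + 2 - i) H)) / m ^ i)) := by
            have e5 : m ^ (n + 2) = m ^ (n + 2 - i) * m ^ i := by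
              rw [← pow_add]; congr 1; omega
            rw [e5]
            field_simp
        _ ≤ _ := mul_le_mul_of_nonneg_left b4 (by positivity)
  -- combine
  have hP0 : 0 < t (replicate (n + 1) Mq + replicate 2 H) :=
    hpos _ (by rw [card_add, card_replicate, card_replicate])
  have hA0 : 0 < t (X ::ₘ replicate (n + 2) H) :=
    hpos _ (by rw [card_cons, card_replicate])
  have hDS0 : 0 < t (D ::ₘ replicate (n + 2) H) := hpos _ (by rw [card_cons, card_replicate])
  have hfin : t (X ::ₘ replicate (n + 2) H) *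
      ((N : ℝ) ^ (n + 1) * m ^ 2 * t (replicate (n + 1) Mq + replicate 2 H)) ≤
      4 ^ (n + 2) * ((2 ^ (n + 2) * (2 ^ (n + 2) * m ^ (n + 2) * Sg)) *
        (N * m * (c + 2) * τ)) := by
    calc _ ≤ t (X ::ₘ replicate (n + 2) H) * t (replicate (n + 3) D) :=
          mul_le_mul_of_nonneg_left h2 hA0.le
      _ ≤ 4 ^ (n + 2) * (t (X ::ₘ replicate (n + 2) D) * t (D ::ₘ replicate (n + 2) H)) := hrk
      _ ≤ _ := by
        apply mul_le_mul_of_nonneg_left _ (by positivity)
        exact mul_le_mul h3 h1 hDS0.le (by positivity)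
  rw [← hSg, ← hτ]
  have hden : (0 : ℝ) < m ^ (n + 3) := by positivity
  have e6 : t (X ::ₘ replicate (n + 2) H) * ((N : ℝ) ^ (n + 1) *
        (t (replicate (n + 1) Mq + replicate 2 H) / m ^ (n + 1))) =
      (t (X ::ₘ replicate (n + 2) H) *
      ((N : ℝ) ^ (n + 1) * m ^ 2 * t (replicate (n + 1) Mq + replicate 2 H))) / m ^ (n + 3) := by
    have : m ^ (n + 3) = m ^ (n + 1) * m ^ 2 := by rw [← pow_add]
    rw [this]
    field_simp
  rw [e6, div_le_iff₀ hden]
  refine hfin.trans (le_of_eq ?_)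
  have e7 : (16 : ℝ) ^ (n + 2) = 4 ^ (n + 2) * (2 ^ (n + 2) * 2 ^ (n + 2)) := by
    rw [← mul_pow, ← mul_pow]; norm_num
  have e8 : m ^ (n + 3) = m ^ (n + 2) * m := by rw [← pow_succ]
  rw [e7, e8]
  ring

end Pool.Agent.H96.QU
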